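import Pool.Agent.R215.TD.Two

/-!
MP_dc9025_an, Q1 (negative answer): there are a positive reaction `f` and two disjoint closed discs
in the plane such that `-Δu = f(u)` in the complement of the discs, `u = 0` on their boundary, has
two different positive bounded solutions.

The two discs have the same, very large radius; the gap between them is slightly wider than `π`.
-/

open Metric Set

namespace Pool.Agent.Results.MP_dc9025_an.TwoDiscsTwoSolutions

/-- `f` is a positive reaction (given on all of `ℝ`; only its values on `[0,∞)` matter): `f` is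
`C^{1,γ}` for some `γ ∈ (0,1]`, `f(0) = f(1) = 0`, `f > 0` on `(0,1)`, `f < 0` on `(1,∞)`,
`f'(0) > 0` and `f'(1) < 0`. -/
structure IsPositiveReaction (f : ℝ → ℝ) : Prop where
  contDiff : ContDiff ℝ 1 f
  holder : ∃ γ : NNReal, 0 < γ ∧ γ ≤ 1 ∧ ∃ C : NNReal, HolderWith C γ (deriv f)
  zero : f 0 = 0
  one : f 1 = 0
  pos : ∀ t, 0 < t → t < 1 → 0 < f t
  deriv_zero : 0 < deriv f 0
  neg : ∀ t, 1 < t → f t < 0
  deriv_one : deriv f 1 < 0

/-- `u` is a positive bounded classical solution of `-Δu = f(u)` in `Ω`, `u = 0` on `∂Ω`. -/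
structure IsPositiveBoundedSolution {d : ℕ} (f : ℝ → ℝ) (Ω : Set (EuclideanSpace ℝ (Fin d)))
    (u : EuclideanSpace ℝ (Fin d) → ℝ) : Prop where
  contDiffOn : ContDiffOn ℝ 2 u Ω
  continuousOn : ContinuousOn u (closure Ω)
  bounded : ∃ C : ℝ, ∀ x ∈ Ω, |u x| ≤ C
  pos : ∀ x ∈ Ω, 0 < u x
  boundary : ∀ x ∈ frontier Ω, u x = 0
  equation : ∀ x ∈ Ω, -(Laplacian.laplacian u x) = f (u x)

open Pool.Agent.R215.TD Pool.Agent.H52R3.Epi in
/-- Two different positive bounded solutions in the complement of two disjoint closed discs. -/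
theorem result : ∃ (f : ℝ → ℝ) (c₁ c₂ : EuclideanSpace ℝ (Fin 2)) (r₁ r₂ : ℝ)
    (u v : EuclideanSpace ℝ (Fin 2) → ℝ),
    IsPositiveReaction f ∧ 0 < r₁ ∧ 0 < r₂ ∧ Disjoint (closedBall c₁ r₁) (closedBall c₂ r₂) ∧
    IsPositiveBoundedSolution f (closedBall c₁ r₁ ∪ closedBall c₂ r₂)ᶜ u ∧
    IsPositiveBoundedSolution f (closedBall c₁ r₁ ∪ closedBall c₂ r₂)ᶜ v ∧
    ∃ x ∈ (closedBall c₁ r₁ ∪ closedBall c₂ r₂)ᶜ, u x ≠ v x := by
  obtain ⟨a, ha, ha1⟩ : ∃ a : ℝ, 0 < a ∧ a ≤ 1 / 1000000 := ⟨1 / 1000000, by norm_num, le_rfl⟩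
  have hR := RR_pos ha
  have hh0 := hh_pos ha
  obtain ⟨u, u1, u2, u3, u4, u5, u6⟩ := exists_large ha ha1
  obtain ⟨v, v1, v2, v3, v4, v5, v6⟩ := exists_small ha ha1
  refine ⟨rf a, pt 0 (RR a + hh a), pt 0 (-(RR a + hh a)), RR a, RR a, u, v, ?_, hR, hR,
    disjoint_discs hR hh0, ?_, ?_, 0, zero_mem_Om hR hh0, ?_⟩
  · refine ⟨contDiff_rf ha ha1, ⟨1, one_pos, le_rfl, Real.toNNReal (14 / a + 8), ?_⟩, rf_zero a, rf_one a,
      fun t => rf_pos ha ha1, deriv_rf_zero ha, fun t => rf_neg ha ha1, deriv_rf_one ha ha1⟩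
    exact holderWith_one.2 (lipschitz_deriv_rf ha ha1)
  · refine ⟨u1, u2, ⟨1, fun x hx => ?_⟩, u4, u3, fun x hx => ?_⟩
    · rw [abs_of_pos (u4 x hx)]
      exact (u5 x hx).2
    · rw [← lap_eq_laplacian]
      exact u6 x hx
  · refine ⟨v1, v2, ⟨1, fun x hx => ?_⟩, v4, v3, fun x hx => ?_⟩
    · rw [abs_of_pos (v4 x hx)]
      exact (v5 x hx).2.trans (Su_le_one a x)
    · rw [← lap_eq_laplacian]
      exact v6 x hx
  · have h1 := (u5 0 (zero_mem_Om hR hh0)).1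
    have h2 := (v5 0 (zero_mem_Om hR hh0)).2
    have h3 := Vl_zero ha ha1
    have h4 := Su_zero ha ha1
    intro h
    linarith

end Pool.Agent.Results.MP_dc9025_an.TwoDiscsTwoSolutions
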